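import Pool.Agent.K4W.StmtsP
import Pool.Agent.Helper20_HUA.Hmt

/-!
K4W, row CSQ: completing the square.
-/

set_option autoImplicit false

namespace Pool.Agent.K4W.H77

open Pool.Agent.Helper69_Weyl (ee ee_add)

theorem csq (per : PerStmt) : CsqStmt := by
  intro r a m w hr hw
  have hper := (per r hr (fun x : ℤ => ee (((a * x ^ 2 : ℤ) : ℝ) / (r : ℝ))) (fun x => by
    refine Pool.Agent.VM.H20.ee_cong r hr _ _ ?_
    exact ⟨a * (2 * x + r), by ring⟩)).1 (2 * w * m)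
  unfold GS
  have h1 : ∑ c ∈ Finset.range r, ee (((a * (c : ℤ) ^ 2 + 0 * (c : ℤ) : ℤ) : ℝ) / (r : ℝ))
      = ∑ c ∈ Finset.range r, ee (((a * ((c : ℤ) + 2 * w * m) ^ 2 : ℤ) : ℝ) / (r : ℝ)) := by
    rw [hper]
    refine Finset.sum_congr rfl fun c _ => ?_
    rw [zero_mul, add_zero]
  rw [h1, Finset.mul_sum]
  refine Finset.sum_congr rfl fun c _ => ?_
  rw [← ee_add, ← add_div, ← Int.cast_add]
  refine Pool.Agent.VM.H20.ee_cong r hr _ _ ?_
  obtain ⟨d, hd⟩ := hw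
  refine ⟨-d * (m * c + w * m ^ 2), ?_⟩
  linear_combination (-(m * c + w * m ^ 2)) * hd

end Pool.Agent.K4W.H77
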