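import Pool.Agent.K4W.StmtsF

namespace Pool.Agent.K4W.H77

open Pool.Agent.K4W

theorem lpz_num (z n r x : ℝ) (hz : 2 ≤ z) (hn : 0 ≤ n) (hN : n ≤ 2 * z ^ 64000)
    (hr : n ≤ r * z ^ 84) (hr0 : 0 < r) (hx : x ≤ 1 / z ^ 130216) (hx0 : 0 ≤ x) :
    (2 * z ^ 1085 + 1) * (2 * z ^ 1000 * x * n ^ 3 / Real.sqrt r) ≤ z ^ 31917 := by
  have hz0 : (0:ℝ) < z := by linarith
  have hz1 : (1:ℝ) ≤ z := by linarith
  have hs : 0 < Real.sqrt r := Real.sqrt_pos.2 hr0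
  have hs2 : Real.sqrt r ^ 2 = r := Real.sq_sqrt hr0.le
  -- n ^ 3 ≤ 6 z ^ 160042 √r
  have h5 : n ^ 5 ≤ (2 * z ^ 64000) ^ 5 := pow_le_pow_left₀ hn hN 5
  have h5' : (2 * z ^ 64000) ^ 5 = 32 * z ^ 320000 := by
    rw [mul_pow, ← pow_mul]
    norm_num
  have h6 : (n ^ 3) ^ 2 ≤ (6 * z ^ 160042 * Real.sqrt r) ^ 2 := by
    have e1 : (n ^ 3) ^ 2 = n ^ 5 * n := by ring
    have e2 : (6 * z ^ 160042 * Real.sqrt r) ^ 2 = 36 * (z ^ 320000 * (r * z ^ 84)) := by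
      rw [mul_pow, mul_pow, hs2, ← pow_mul]
      have e3 : z ^ (160042 * 2) = z ^ 320000 * z ^ 84 := by
        rw [← pow_add]
      rw [e3]
      ring
    rw [e1, e2]
    have h7 : n ^ 5 * n ≤ (32 * z ^ 320000) * (r * z ^ 84) := by
      apply mul_le_mul (by rw [← h5']; exact h5) hr hn
      exact mul_nonneg (by norm_num) (pow_nonneg hz0.le _)
    have h8 : 0 ≤ z ^ 320000 * (r * z ^ 84) :=
      mul_nonneg (pow_nonneg hz0.le _) (mul_nonneg hr0.le (pow_nonneg hz0.le _))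
    have h9 : (32 * z ^ 320000) * (r * z ^ 84) = 32 * (z ^ 320000 * (r * z ^ 84)) := by
      rw [mul_assoc]
    rw [h9] at h7
    linarith
  have h7 : n ^ 3 ≤ 6 * z ^ 160042 * Real.sqrt r := by
    refine (pow_le_pow_iff_left₀ (pow_nonneg hn _) ?_ (by norm_num)).1 h6
    exact mul_nonneg (mul_nonneg (by norm_num) (pow_nonneg hz0.le _)) hs.le
  have h8 : n ^ 3 / Real.sqrt r ≤ 6 * z ^ 160042 := by
    rw [div_le_iff₀ hs]
    exact h7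
  have h9 : 2 * z ^ 1085 + 1 ≤ 3 * z ^ 1085 := by
    have := one_le_pow₀ (n := 1085) hz1
    linarith
  have hq0 : 0 ≤ n ^ 3 / Real.sqrt r := div_nonneg (pow_nonneg hn _) hs.le
  have e0 : 2 * z ^ 1000 * x * n ^ 3 / Real.sqrt r = (2 * z ^ 1000) * (x * (n ^ 3 / Real.sqrt r)) := by
    rw [mul_assoc (2 * z ^ 1000) x, mul_div_assoc, mul_div_assoc]
  have h10 : x * (n ^ 3 / Real.sqrt r) ≤ (1 / z ^ 130216) * (6 * z ^ 160042) :=
    mul_le_mul hx h8 hq0 (by positivity)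
  have e1 : (1 / z ^ 130216) * (6 * z ^ 160042) = 6 * z ^ 29826 := by
    have e2 : z ^ 160042 = z ^ 29826 * z ^ 130216 := by rw [← pow_add]
    have hp : z ^ 130216 ≠ 0 := pow_ne_zero _ hz0.ne'
    rw [e2]
    field_simp
  rw [e1] at h10
  rw [e0]
  calc (2 * z ^ 1085 + 1) * ((2 * z ^ 1000) * (x * (n ^ 3 / Real.sqrt r)))
      ≤ (3 * z ^ 1085) * ((2 * z ^ 1000) * (6 * z ^ 29826)) := by
        apply mul_le_mul h9 _ (mul_nonneg (mul_nonneg (by norm_num) (pow_nonneg hz0.le _))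
          (mul_nonneg hx0 hq0)) (mul_nonneg (by norm_num) (pow_nonneg hz0.le _))
        exact mul_le_mul_of_nonneg_left h10 (mul_nonneg (by norm_num) (pow_nonneg hz0.le _))
    _ = 36 * z ^ 31911 := by
        have e3 : z ^ 31911 = z ^ 1085 * (z ^ 1000 * z ^ 29826) := by
          rw [← pow_add, ← pow_add]
        rw [e3]
        ring
    _ ≤ z ^ 6 * z ^ 31911 := by
        apply mul_le_mul_of_nonneg_right _ (pow_nonneg hz0.le _)
        calc (36:ℝ) ≤ 2 ^ 6 := by norm_num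
          _ ≤ z ^ 6 := pow_le_pow_left₀ (by norm_num) hz 6
    _ = z ^ 31917 := by rw [← pow_add]

theorem lpz (lps : LpsStmt) : LpzStmt := by
  refine ⟨2, ?_⟩
  intro Z hZ N r S ψ v u β β' hSz hS hodd hr hψ hβ
  have hZ0 : 0 < Z := by omega
  have hN0 : 0 < N := lt_of_lt_of_le (pow_pos hZ0 _) hSz.1
  have hr0 : 0 < r := by
    rcases Nat.eq_zero_or_pos r with h | h
    · rw [h, zero_mul] at hr
      exact absurd hr (Nat.not_lt_zero _)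
    · exact h
  have key := lps N r (Z ^ 1085) (2 * Z ^ 1000) S ψ v β β' u hN0 hodd
    (fun μ hμ => ⟨(hS.2 μ hμ).1, (hS.2 μ hμ).2.2⟩) hψ
  refine key.trans ?_
  have c1 : ((Z ^ 1085 : ℕ) : ℝ) = (Z : ℝ) ^ 1085 := Nat.cast_pow _ _
  have c2 : ((2 * Z ^ 1000 : ℕ) : ℝ) = 2 * (Z : ℝ) ^ 1000 := by
    rw [Nat.cast_mul, Nat.cast_pow]
    norm_num
  have c3 : (N : ℝ) ≤ 2 * (Z : ℝ) ^ 64000 := by
    have h := hSz.2
    have h' : (N : ℝ) ≤ ((2 * Z ^ 64000 : ℕ) : ℝ) := Nat.cast_le.2 h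
    rw [Nat.cast_mul, Nat.cast_pow] at h'
    exact_mod_cast h'
  have c4 : (N : ℝ) ≤ (r : ℝ) * (Z : ℝ) ^ 84 := by
    have h' : (N : ℝ) ≤ ((r * Z ^ 84 : ℕ) : ℝ) := Nat.cast_le.2 hr.le
    rw [Nat.cast_mul, Nat.cast_pow] at h'
    exact h'
  have c5 : (2 : ℝ) ≤ (Z : ℝ) := by exact_mod_cast hZ
  have c6 : (0 : ℝ) < (r : ℝ) := Nat.cast_pos.2 hr0
  rw [c1, c2, mul_assoc]
  apply mul_le_mul_of_nonneg_left _ (Nat.cast_nonneg _)
  exact lpz_num (Z : ℝ) (N : ℝ) (r : ℝ) |β - β'| c5 (Nat.cast_nonneg _) c3 c4 c6 hβ (abs_nonneg _)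

end Pool.Agent.K4W.H77
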