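import Pool.Agent.K4W.StmtsM

/-!
K4W, row MPR: product over the fibres.
-/

set_option autoImplicit false

namespace Pool.Agent.K4W.H77

theorem mpr : MprStmt := by
  classical
  intro n p t g hg
  rw [Finset.prod_sum]
  refine Finset.sum_nbij' (fun (m : Fin n → ℤ) (q : ℕ) (_ : q ∈ Finset.univ.image p) (i : Fin n) =>
      if p i = q then m i else 0)
    (fun F i => F (p i) (Finset.mem_image_of_mem p (Finset.mem_univ i)) i) ?_ ?_ ?_ ?_ ?_
  · intro m hm
    rw [Finset.mem_pi]
    intro q _
    rw [Fintype.mem_piFinset] at hm ⊢
    intro i
    show (if p i = q then m i else 0) ∈ (if p i = q then t i else {0})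
    by_cases h : p i = q
    · rw [if_pos h, if_pos h]
      exact hm i
    · rw [if_neg h, if_neg h]
      exact Finset.mem_singleton_self 0
  · intro F hF
    rw [Finset.mem_pi] at hF
    rw [Fintype.mem_piFinset]
    intro i
    have h := hF (p i) (Finset.mem_image_of_mem p (Finset.mem_univ i))
    rw [Fintype.mem_piFinset] at h
    have h1 := h i
    rw [if_pos rfl] at h1
    exact h1
  · intro m _
    funext i
    exact if_pos rfl
  · intro F hF
    rw [Finset.mem_pi] at hF
    funext q hq i
    by_cases h : p i = q
    · subst h
      exact if_pos rfl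
    · have h1 := hF q hq
      rw [Fintype.mem_piFinset] at h1
      have h2 := h1 i
      rw [if_neg h, Finset.mem_singleton] at h2
      exact (if_neg h).trans h2.symm
  · intro m _
    rw [← Finset.prod_attach]
    refine Finset.prod_congr rfl fun x _ => ?_
    refine hg x.1 _ _ fun i hi => ?_
    exact (if_pos hi).symm

end Pool.Agent.K4W.H77
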