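import Pool.Agent.K4W.StmtsM

/-!
K4W, row MZD: the integer is zero.
-/

set_option autoImplicit false

namespace Pool.Agent.K4W.H77

theorem mzd : MzdStmt := by
  classical
  intro n r M P₀ p s m v hp hv hs hm hr hdvd
  have hrpos : (0 : ℤ) < r := by
    have : 0 < r := lt_of_le_of_lt (Nat.zero_le _) hr
    exact_mod_cast this
  refine Int.eq_zero_of_abs_lt_dvd (m := (r : ℤ)) ?_ ?_
  · -- divisibility
    have h1 : (r : ℤ) ∣ (∏ k, (p k : ℤ)) * ∑ i, s i * (v (p i) * m i ^ 2) :=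
      Dvd.dvd.mul_left hdvd _
    have h2 : (r : ℤ) ∣ (∏ k, (p k : ℤ)) * (∑ i, s i * (v (p i) * m i ^ 2))
        - ∑ i, s i * m i ^ 2 * ∏ k ∈ Finset.univ.erase i, (p k : ℤ) := by
      rw [Finset.mul_sum, ← Finset.sum_sub_distrib]
      refine Finset.dvd_sum fun i _ => ?_
      obtain ⟨d, hd⟩ := hv i
      rw [← Finset.mul_prod_erase _ _ (Finset.mem_univ i)]
      refine ⟨d * (s i * m i ^ 2 * ∏ k ∈ Finset.univ.erase i, (p k : ℤ)), ?_⟩
      linear_combination (s i * m i ^ 2 * ∏ k ∈ Finset.univ.erase i, (p k : ℤ)) * hd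
    have h3 := dvd_sub h1 h2
    rwa [sub_sub_cancel] at h3
  · -- size
    have h1 : |∑ i, s i * m i ^ 2 * ∏ k ∈ Finset.univ.erase i, (p k : ℤ)|
        ≤ ∑ _i : Fin n, (M : ℤ) ^ 2 * (P₀ : ℤ) ^ (n - 1) := by
      refine (Finset.abs_sum_le_sum_abs _ _).trans (Finset.sum_le_sum fun i _ => ?_)
      rw [abs_mul, abs_mul]
      have e1 : |s i| = 1 := by
        rcases hs i with h | h
        · rw [h, abs_one]
        · rw [h, abs_neg, abs_one]
      rw [e1, one_mul]
      have e2 : |m i ^ 2| ≤ (M : ℤ) ^ 2 := by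
        rw [abs_pow]
        exact pow_le_pow_left₀ (abs_nonneg _) (hm i) 2
      have e3 : |∏ k ∈ Finset.univ.erase i, (p k : ℤ)| ≤ (P₀ : ℤ) ^ (n - 1) := by
        rw [Finset.abs_prod]
        have h4 : ∏ k ∈ Finset.univ.erase i, |(p k : ℤ)| ≤ ∏ _k ∈ Finset.univ.erase i, (P₀ : ℤ) := by
          refine Finset.prod_le_prod (fun _ _ => abs_nonneg _) fun k _ => ?_
          rw [abs_of_nonneg (Int.natCast_nonneg _)]
          exact_mod_cast hp k
        rw [Finset.prod_const, Finset.card_erase_of_mem (Finset.mem_univ i), Finset.card_univ,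
          Fintype.card_fin] at h4
        exact h4
      exact mul_le_mul e2 e3 (abs_nonneg _) (by positivity)
    rw [Finset.sum_const, Finset.card_univ, Fintype.card_fin, nsmul_eq_mul] at h1
    refine lt_of_le_of_lt h1 ?_
    have h2 : ((n * M ^ 2 * P₀ ^ (n - 1) : ℕ) : ℤ) < r := by exact_mod_cast hr
    push_cast at h2
    rwa [mul_assoc] at h2

end Pool.Agent.K4W.H77
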